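import Pool.Agent.Helper70.E3.Hits

/-!
# Sets of tests for a random function
-/

set_option autoImplicit false

namespace Pool.Agent.E3

open Finset

/-- a test: a finite set of events (supports) and the hit relation -/
abbrev Tst := Finset (ℕ × ℕ) × (ℕ × ℕ → ℕ → ℕ → Prop)

/-- at most `2 ^ s` events, at most `b` hit values of each -/
structure TOk (m b s : ℕ) (t : Tst) : Prop where
  card : t.1.card ≤ 2 ^ s
  hit : ∀ p ∈ t.1, HitB (2 ^ m) b t.2 p

/-- less than `r` disjoint hit events -/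
def TPass (t : Tst) (f : ℕ → ℕ) (r : ℕ) : Prop :=
  ∀ S ⊆ t.1, MDisj S → (∀ p ∈ S, t.2 p (f p.1) (f p.2)) → S.card < r

/-- a set with at most `n` elements -/
def Few {α : Type*} (P : Set α) (n : ℕ) : Prop := ∃ F : Finset α, (∀ x ∈ P, x ∈ F) ∧ F.card ≤ n

theorem Few.mono {α : Type*} {P Q : Set α} {n m : ℕ} (h : Few P n) (hs : Q ⊆ P) (hnm : n ≤ m) :
    Few Q m := by
  obtain ⟨F, h1, h2⟩ := h
  exact ⟨F, fun x hx => h1 x (hs hx), h2.trans hnm⟩

theorem Few.union {α : Type*} {P Q : Set α} {n m : ℕ} (h : Few P n) (h' : Few Q m) :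
    Few (P ∪ Q) (n + m) := by
  classical
  obtain ⟨F, h1, h2⟩ := h
  obtain ⟨F', h1', h2'⟩ := h'
  refine ⟨F ∪ F', ?_, (Finset.card_union_le _ _).trans (Nat.add_le_add h2 h2')⟩
  rintro x (hx | hx)
  · exact Finset.mem_union_left _ (h1 x hx)
  · exact Finset.mem_union_right _ (h1' x hx)

theorem Few.ex {α β : Type*} (I : Finset β) (P : β → Set α) {n m : ℕ} (hI : I.card ≤ m)
    (h : ∀ i ∈ I, Few (P i) n) : Few {x | ∃ i ∈ I, x ∈ P i} (m * n) := by
  classical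
  choose! F h1 h2 using h
  refine ⟨I.biUnion F, ?_, ?_⟩
  · rintro x ⟨i, hi, hx⟩
    exact Finset.mem_biUnion.mpr ⟨i, hi, h1 i hi x hx⟩
  · refine Finset.card_biUnion_le.trans ((Finset.sum_le_sum h2).trans ?_)
    rw [Finset.sum_const, smul_eq_mul]
    exact Nat.mul_le_mul_right _ hI

theorem Few.single {α : Type*} (x : α) : Few {y | y = x} 1 :=
  ⟨{x}, fun y hy => Finset.mem_singleton.mpr hy, by simp⟩

/-- **Random function with few hits**, for a set of tests. -/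
theorem exists_rf_few {P : Set Tst} {m q s r N b : ℕ} (hP : Few P (2 ^ N))
    (hok : ∀ t ∈ P, TOk m b s t) (hb : b * 2 ^ (q + s) ≤ 2 ^ m) (h : 1 + N ≤ q * r) :
    ∃ f : ℕ → ℕ, (∀ x, f x < 2 ^ m) ∧ ∀ t ∈ P, TPass t f r := by
  classical
  obtain ⟨F, h1, h2⟩ := hP
  obtain ⟨f, hf, hf'⟩ := exists_rf_thr2 (F.filter (fun t => t ∈ P))
    ((F.filter (fun t => t ∈ P)).biUnion (fun t => t.1.image Prod.fst ∪ t.1.image Prod.snd))
    m q s r N ((Finset.card_filter_le _ _).trans h2) (fun t => t.1)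
    (fun t ht p hp => ⟨Finset.mem_biUnion.mpr ⟨t, ht, Finset.mem_union_left _
      (Finset.mem_image_of_mem _ hp)⟩, Finset.mem_biUnion.mpr ⟨t, ht, Finset.mem_union_right _
      (Finset.mem_image_of_mem _ hp)⟩⟩)
    (fun t ht => (hok t (Finset.mem_filter.mp ht).2).card) (fun t => t.2) b hb
    (fun t ht => (hok t (Finset.mem_filter.mp ht).2).hit) h
  exact ⟨f, hf, fun t ht => hf' t (Finset.mem_filter.mpr ⟨h1 t ht, ht⟩)⟩

/-- single tests -/
theorem TPass.diag {S : Finset ℕ} {P : ℕ → ℕ → Prop} {f : ℕ → ℕ} {r : ℕ}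
    (h : TPass (S.image (fun x => (x, x)), fun p v _ => P p.1 v) f r) (Q : Finset ℕ)
    (hQ : ∀ x ∈ Q, x ∈ S ∧ P x (f x)) : Q.card < r := by
  classical
  have := h (Q.image (fun x => (x, x))) (Finset.image_subset_image (fun x hx => (hQ x hx).1))
    (mdisj_diag Q) (by
      intro p hp
      obtain ⟨x, hx, rfl⟩ := Finset.mem_image.mp hp
      exact (hQ x hx).2)
  rwa [card_diag] at this

theorem TOk.diag {S : Finset ℕ} {P : ℕ → ℕ → Prop} {m b s : ℕ}
    (hc : S.card ≤ 2 ^ s)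
    (h : ∀ x ∈ S, ∀ Q : Finset ℕ, (∀ v ∈ Q, v < 2 ^ m ∧ P x v) → Q.card ≤ b) :
    TOk m b s (S.image (fun x => (x, x)), fun p v _ => P p.1 v) := by
  classical
  refine ⟨?_, ?_⟩
  · exact Finset.card_image_le.trans hc
  · intro p hp
    obtain ⟨x, hx, rfl⟩ := Finset.mem_image.mp hp
    exact ⟨fun _ Q hQ => h x hx Q hQ, fun hne => absurd rfl hne⟩

end Pool.Agent.E3
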