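import Pool.Agent.Helper70.E3.LamF

/-!
# Step H of the local choice
-/

variable [Pool.Agent.Helper29.E3.EpFn]

set_option autoImplicit false

namespace Pool.Agent.E3

open Finset

variable {G : Geo}

/-- the near scales below `K` -/
theorem card_near_le (G : Geo) (K : ℕ) (I : Finset ℕ) (hI : ∀ K' ∈ I, G.Near K K') :
    I.card ≤ G.g K := by
  have hsub : I ⊆ Finset.Ico (K + 1 - G.g K) (K + 1) := by
    intro K' hK'
    obtain ⟨_, h1, h2⟩ := hI K' hK'
    rw [Finset.mem_Ico]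
    omega
  refine (Finset.card_le_card hsub).trans ?_
  rw [Nat.card_Ico]
  omega

open Classical in
/-- tests for the lists of one scale -/
noncomputable def tH1 (G : Geo) (K : ℕ) (Q : Finset ℕ) (x : ℕ) : Tst :=
  (Q.image (fun x => (x, x)), fun _ v _ => ∃ ω ∈ G.Sd (G.lO K),
    (ω + v) % 2 ^ G.lO K = x % 2 ^ G.lO K)

open Classical in
/-- tests for the lists of two scales -/
noncomputable def tH2 (G : Geo) (D : ℕ → Dt) (K K' : ℕ) (L : Finset (ℕ × ℕ)) (x : ℕ) : Tst :=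
  ((L.image Prod.fst).image (fun x => (x, x)), fun p v _ => ∃ p' ∈ L, p'.1 = p.1 ∧
    ∃ ω ∈ G.Sd (G.lO K), (ω + v + (D K').H p'.2) % 2 ^ G.lO K = x % 2 ^ G.lO K)

open Classical in
/-- tests for the lists of a scale with itself -/
noncomputable def tH3 (G : Geo) (K : ℕ) (L : Finset (ℕ × ℕ)) (x : ℕ) : Tst :=
  (L.filter (fun p => p.1 ≤ p.2), fun _ v v' => ∃ ω ∈ G.Sd (G.lO K),
    (ω + v + v') % 2 ^ G.lO K = x % 2 ^ G.lO K)

/-- all tests for step H -/
def PPH (G : Geo) (D : ℕ → Dt) (K : ℕ) (I : Finset ℕ) : Set Tst :=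
  {t | ∃ Q ∈ G.LF1 K, t ∈ {t | ∃ x ∈ range (2 ^ G.lO K), t ∈ {y | y = tH1 G K Q x}}} ∪
  ({t | ∃ K' ∈ I, t ∈ {t | ∃ L ∈ G.LF K K', t ∈ {t | ∃ x ∈ range (2 ^ G.lO K),
    t ∈ {y | y = tH2 G D K K' L x}}}} ∪
  {t | ∃ L ∈ G.LF K K, t ∈ {t | ∃ x ∈ range (2 ^ G.lO K), t ∈ {y | y = tH3 G K L x}}})

theorem near_self (_hG : G.Ok) {K : ℕ} (hK : G.K0 ≤ K) (hg : 0 < G.g K) : G.Near K K :=
  ⟨hK, le_rfl, by omega⟩

theorem few_PPH (hG : G.Ok) (D : ℕ → Dt) {K : ℕ} (hK : G.K0 ≤ K) (hT : G.isT K)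
    (hg : 0 < G.g K) (I : Finset ℕ) (hI : ∀ K' ∈ I, G.Near K K') :
    Few (PPH G D K I) (2 ^ (G.E K + 2 * G.l1 K + 2)) := by
  have hl : (range (2 ^ G.lO K)).card ≤ 2 ^ G.l1 K := by
    rw [Finset.card_range]
    exact Nat.pow_le_pow_right (by norm_num) (hG.lO_high K hK)
  have h1 : Few {t | ∃ Q ∈ G.LF1 K, t ∈ {t | ∃ x ∈ range (2 ^ G.lO K),
      t ∈ {y | y = tH1 G K Q x}}} (2 ^ G.E K * (2 ^ G.l1 K * 1)) :=
    Few.ex _ _ (hG.card_LF1 K hK hT) (fun Q _ => Few.ex _ _ hl (fun x _ => Few.single _))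
  have h2 : Few {t | ∃ K' ∈ I, t ∈ {t | ∃ L ∈ G.LF K K', t ∈ {t | ∃ x ∈ range (2 ^ G.lO K),
      t ∈ {y | y = tH2 G D K K' L x}}}} (2 ^ G.l1 K * (2 ^ G.E K * (2 ^ G.l1 K * 1))) :=
    Few.ex _ _ ((card_near_le G K I hI).trans (hG.g_le K hK)) (fun K' hK' =>
      Few.ex _ _ (hG.card_LF K K' (hI K' hK')) (fun L _ => Few.ex _ _ hl
        (fun x _ => Few.single _)))
  have h3 : Few {t | ∃ L ∈ G.LF K K, t ∈ {t | ∃ x ∈ range (2 ^ G.lO K),
      t ∈ {y | y = tH3 G K L x}}} (2 ^ G.E K * (2 ^ G.l1 K * 1)) :=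
    Few.ex _ _ (hG.card_LF K K (near_self hG hK hg)) (fun Q _ => Few.ex _ _ hl
      (fun x _ => Few.single _))
  refine (h1.union (h2.union h3)).mono (fun t ht => ht) ?_
  have e1 : 2 ^ G.E K * (2 ^ G.l1 K * 1) ≤ 2 ^ (G.E K + 2 * G.l1 K) := by
    rw [mul_one, ← pow_add]
    exact Nat.pow_le_pow_right (by norm_num) (by omega)
  have e2 : 2 ^ G.l1 K * (2 ^ G.E K * (2 ^ G.l1 K * 1)) ≤ 2 ^ (G.E K + 2 * G.l1 K) := by
    rw [mul_one, ← pow_add, ← pow_add]
    exact Nat.pow_le_pow_right (by norm_num) (by omega)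
  have e3 : 2 ^ (G.E K + 2 * G.l1 K + 2) = 4 * 2 ^ (G.E K + 2 * G.l1 K) := by
    rw [pow_add]; ring
  rw [e3]
  omega

theorem sd_card_le (hG : G.Ok) {K : ℕ} (hK : G.K0 ≤ K) :
    (G.Sd (G.lO K)).card * 2 ≤ 2 ^ (G.lO K - 2 * G.d K) := by
  have h1 := (hG.sdO K hK).card
  have h2 := hG.lO_low K hK
  have h3 := hG.d_pos K hK
  calc (G.Sd (G.lO K)).card * 2 ≤ 2 ^ (G.lO K / 2) * 2 := Nat.mul_le_mul_right _ h1
    _ = 2 ^ (G.lO K / 2 + 1) := (pow_succ _ _).symm
    _ ≤ 2 ^ (G.lO K - 2 * G.d K) := Nat.pow_le_pow_right (by norm_num) (by omega)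

theorem le_two_pow_d (hG : G.Ok) {K : ℕ} (hK : G.K0 ≤ K) {c : ℕ} (hc : c ≤ 8 * G.A K) :
    c ≤ 2 ^ G.d K := by
  have h1 := hG.numd K hK
  have h2 := hG.d_pos K hK
  calc c ≤ 8 * G.A K := hc
    _ ≤ 2 ^ 3 * 2 ^ (G.d K - 20) := Nat.mul_le_mul (by norm_num) h1
    _ = 2 ^ (3 + (G.d K - 20)) := (pow_add _ _ _).symm
    _ ≤ 2 ^ G.d K := Nat.pow_le_pow_right (by norm_num) (by omega)

theorem core_H_ok (hG : G.Ok) (D : ℕ → Dt) {K : ℕ} (hK : G.K0 ≤ K) (hT : G.isT K)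
    (hg : 0 < G.g K) (I : Finset ℕ)
    (hI : ∀ K' ∈ I, G.Near K K' ∧ G.isT K') :
    ∀ t ∈ PPH G D K I, TOk (G.lO K) (2 ^ (G.lO K - 2 * G.d K)) (G.d K) t := by
  classical
  have hM : 0 < 2 ^ G.lO K := Nat.pow_pos (by norm_num)
  have hsd := sd_card_le hG hK
  rintro t (⟨Q, hQ, x, hx, rfl⟩ | ⟨K', hK', L, hL, x, hx, rfl⟩ | ⟨L, hL, x, hx, rfl⟩)
  · refine TOk.diag (P := fun _ v => ∃ ω ∈ G.Sd (G.lO K),
      (ω + v) % 2 ^ G.lO K = x % 2 ^ G.lO K) (le_two_pow_d hG hK ?_) ?_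
    · have := hG.card_mem1 K hK hT Q hQ
      omega
    · intro τ _ V hV
      refine (card_hit_le (G.Sd (G.lO K)) (2 ^ G.lO K) (fun ω => ω)
        (fun _ => x % 2 ^ G.lO K) V ?_).trans (by omega)
      intro v hv
      obtain ⟨h1, ω, h2, h3⟩ := hV v hv
      exact ⟨h1, ω, h2, by rw [add_comm]; exact h3⟩
  · have hK'2 := hI K' hK'
    have hL2 : L ∈ G.LF2 K K' := by
      unfold Geo.LF at hL
      rwa [if_pos hT, if_pos hK'2.2] at hL
    refine TOk.diag (P := fun τ v => ∃ p' ∈ L, p'.1 = τ ∧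
      ∃ ω ∈ G.Sd (G.lO K), (ω + v + (D K').H p'.2) % 2 ^ G.lO K = x % 2 ^ G.lO K)
      (le_two_pow_d hG hK ?_) ?_
    · have h1 := hG.card_mem K K' hK'2.1 L hL
      have h2 : (L.image Prod.fst).card ≤ L.card := Finset.card_image_le
      omega
    · intro τ hτ V hV
      obtain ⟨p0, hp0, hp0τ⟩ := Finset.mem_image.mp hτ
      refine (card_hit_le (G.Sd (G.lO K)) (2 ^ G.lO K) (fun ω => ω + (D K').H p0.2)
        (fun _ => x % 2 ^ G.lO K) V ?_).trans (by omega)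
      intro v hv
      obtain ⟨h1, p', hp', hp'τ, ω, h2, h3⟩ := hV v hv
      have : p' = p0 := hG.inj K K' hK'2.1 hT hK'2.2 L hL2 p' hp' p0 hp0
        (Or.inl (hp'τ.trans hp0τ.symm))
      subst this
      refine ⟨h1, ω, h2, ?_⟩
      rw [← h3]
      congr 1
      ring
  · refine ⟨?_, ?_⟩
    · have h1 := hG.card_mem K K (near_self hG hK hg) L hL
      have h2 : (L.filter (fun p => p.1 ≤ p.2)).card ≤ L.card := Finset.card_filter_le _ _
      exact le_two_pow_d hG hK (c := (tH3 G K L x).1.card) (by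
        show (L.filter (fun p => p.1 ≤ p.2)).card ≤ _
        omega)
    · intro p hp
      refine ⟨fun _ V hV => ?_, fun _ v' _ V hV => ?_⟩
      · refine (card_hit_two_le (G.Sd (G.lO K)) (2 ^ G.lO K) (fun ω => ω)
          (fun _ => x % 2 ^ G.lO K) V ?_).trans hsd
        intro v hv
        obtain ⟨h1, ω, h2, h3⟩ := hV v hv
        refine ⟨h1, ω, h2, ?_⟩
        rw [← h3]
        congr 1
        ring
      · refine (card_hit_le (G.Sd (G.lO K)) (2 ^ G.lO K) (fun ω => ω + v')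
          (fun _ => x % 2 ^ G.lO K) V ?_).trans (by omega)
        intro v hv
        obtain ⟨h1, ω, h2, h3⟩ := hV v hv
        refine ⟨h1, ω, h2, ?_⟩
        rw [← h3]
        congr 1
        ring

theorem core_H (hG : G.Ok) (D : ℕ → Dt) {K : ℕ} (hK : G.K0 ≤ K) (hT : G.isT K)
    (hg : 0 < G.g K) (I : Finset ℕ)
    (hI : ∀ K' ∈ I, G.Near K K' ∧ G.isT K') :
    ∃ H : ℕ → ℕ, ∀ t ∈ PPH G D K I, TPass t H (G.b K) := by
  classical
  have hM : 0 < 2 ^ G.lO K := Nat.pow_pos (by norm_num)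
  have hex : ∃ f : ℕ → ℕ, (∀ x, f x < 2 ^ G.lO K) ∧ ∀ t ∈ PPH G D K I, TPass t f (G.b K) := by
    refine exists_rf_few (q := G.d K) (s := G.d K) (m := G.lO K) (r := G.b K)
      (b := 2 ^ (G.lO K - 2 * G.d K)) (few_PPH hG D hK hT hg I (fun K' h => (hI K' h).1))
      ?_ ?_ ?_
    · exact core_H_ok hG D hK hT hg I hI
    · rw [← pow_add]
      have := hG.lO_low K hK
      exact Nat.pow_le_pow_right (by norm_num) (by omega)
    · have := hG.numb K hK
      rw [Nat.mul_comm (G.d K)]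
      omega
  obtain ⟨f, _, hf⟩ := hex
  exact ⟨f, hf⟩

/-- **Step H.** -/
theorem step_H (hG : G.Ok) (_hg : ∀ K, G.K0 ≤ K → 0 < G.g K) (D : ℕ → Dt) {K : ℕ}
    (hK : G.K0 ≤ K)
    (_hD : ∀ K', G.K0 ≤ K' → K' < K → PH G D K' ∧ PS G D K' ∧ PT G D K') :
    ∃ H, ∀ S T, PH G (Function.update D K ⟨H, S, T⟩) K := by
  classical
  by_cases hT : G.isT K
  · have hg := hG.g_pos K hK
    · let I : Finset ℕ := (range K).filter (fun K' => G.Near K K' ∧ G.isT K')
      obtain ⟨H, hH⟩ := core_H hG D hK hT hg I (fun K' hK' => (Finset.mem_filter.mp hK').2)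
      have hM : 0 < 2 ^ G.lO K := Nat.pow_pos (by norm_num)
      refine ⟨H, fun S T => ⟨fun h => absurd hT h, ?_, ?_, ?_⟩⟩
      · intro _ Q hQ x
        have h1 := hH (tH1 G K Q (x % 2 ^ G.lO K)) (Or.inl ⟨Q, hQ, x % 2 ^ G.lO K,
          Finset.mem_range.mpr (Nat.mod_lt _ hM), rfl⟩)
        apply TPass.diag (P := fun _ v => ∃ ω ∈ G.Sd (G.lO K),
          (ω + v) % 2 ^ G.lO K = x % 2 ^ G.lO K % 2 ^ G.lO K) h1
        intro τ hτ
        obtain ⟨h2, h3⟩ := Finset.mem_filter.mp hτ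
        refine ⟨h2, ?_⟩
        simpa [Function.update_self] using h3
      · intro K' hn _ hK'T hne L hL x
        have hlt : K' < K := lt_of_le_of_ne hn.2.1 hne
        have hI : K' ∈ I := Finset.mem_filter.mpr ⟨Finset.mem_range.mpr hlt, hn, hK'T⟩
        have h1 := hH (tH2 G D K K' L (x % 2 ^ G.lO K)) (Or.inr (Or.inl ⟨K', hI, L, hL,
          x % 2 ^ G.lO K, Finset.mem_range.mpr (Nat.mod_lt _ hM), rfl⟩))
        have hL2 : L ∈ G.LF2 K K' := by
          unfold Geo.LF at hL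
          rwa [if_pos hT, if_pos hK'T] at hL
        rw [Function.update_self, Function.update_of_ne hne]
        rw [← Finset.card_image_of_injOn (f := Prod.fst) (s := L.filter _)]
        · apply TPass.diag (P := fun τ v => ∃ p' ∈ L, p'.1 = τ ∧
            ∃ ω ∈ G.Sd (G.lO K), (ω + v + (D K').H p'.2) % 2 ^ G.lO K =
              x % 2 ^ G.lO K % 2 ^ G.lO K) h1
          intro τ hτ
          obtain ⟨p, hp, rfl⟩ := Finset.mem_image.mp hτ
          obtain ⟨h2, ω, h3, h4⟩ := Finset.mem_filter.mp hp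
          exact ⟨Finset.mem_image_of_mem _ h2, p, h2, rfl, ω, h3, by rw [Nat.mod_mod]; exact h4⟩
        · intro p hp p' hp' hpp
          exact hG.inj K K' hn hT hK'T L hL2 p (Finset.mem_filter.mp hp).1 p'
            (Finset.mem_filter.mp hp').1 (Or.inl hpp)
      · intro _ L hL x
        have hn := near_self hG hK hg
        have hL2 : L ∈ G.LF2 K K := by
          unfold Geo.LF at hL
          rwa [if_pos hT, if_pos hT] at hL
        have h1 := hH (tH3 G K L (x % 2 ^ G.lO K)) (Or.inr (Or.inr ⟨L, hL,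
          x % 2 ^ G.lO K, Finset.mem_range.mpr (Nat.mod_lt _ hM), rfl⟩))
        rw [Function.update_self]
        -- the hits with `p.1 ≤ p.2`
        have key : ∀ F : Finset (ℕ × ℕ), (∀ p ∈ F, p ∈ L ∧ p.1 ≤ p.2 ∧ ∃ ω ∈ G.Sd (G.lO K),
            (ω + H p.1 + H p.2) % 2 ^ G.lO K = x % 2 ^ G.lO K) → F.card < G.b K := by
          intro F hF
          apply h1 F
          · intro p hp
            exact Finset.mem_filter.mpr ⟨(hF p hp).1, (hF p hp).2.1⟩
          · intro p hp q hq hne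
            obtain ⟨p1, p2, _⟩ := hF p hp
            obtain ⟨q1, q2, _⟩ := hF q hq
            have a1 : p.1 ≠ q.1 := fun h => hne (hG.inj K K hn hT hT L hL2 p p1 q q1 (Or.inl h))
            have a4 : p.2 ≠ q.2 := fun h => hne (hG.inj K K hn hT hT L hL2 p p1 q q1 (Or.inr h))
            have sw : ∀ u ∈ L, ∀ v ∈ L, u.1 = v.2 → u.2 = v.1 := by
              intro u hu v hv huv
              have h5 := hG.inj K K hn hT hT L hL2 u hu v.swap
                (hG.symm K hK hT L hL2 v hv) (Or.inl huv)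
              rw [h5]; rfl
            refine ⟨a1, fun h => ?_, fun h => ?_, a4⟩
            · have h6 := sw p p1 q q1 h
              omega
            · have h6 := sw q q1 p p1 h.symm
              omega
          · intro p hp
            obtain ⟨_, _, ω, h3, h4⟩ := hF p hp
            exact ⟨ω, h3, by rw [Nat.mod_mod]; exact h4⟩
        have hA := key ((L.filter (fun p => ∃ ω ∈ G.Sd (G.lO K),
          (ω + H p.1 + H p.2) % 2 ^ G.lO K = x % 2 ^ G.lO K)).filter (fun p => p.1 ≤ p.2)) (by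
            intro p hp
            obtain ⟨h2, h3⟩ := Finset.mem_filter.mp hp
            obtain ⟨h4, h5⟩ := Finset.mem_filter.mp h2
            exact ⟨h4, h3, h5⟩)
        have hB := key (((L.filter (fun p => ∃ ω ∈ G.Sd (G.lO K),
          (ω + H p.1 + H p.2) % 2 ^ G.lO K = x % 2 ^ G.lO K)).filter
            (fun p => ¬ p.1 ≤ p.2)).image Prod.swap) (by
            intro p hp
            obtain ⟨p', hp', rfl⟩ := Finset.mem_image.mp hp
            obtain ⟨h2, h3⟩ := Finset.mem_filter.mp hp'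
            obtain ⟨h4, ω, h5, h6⟩ := Finset.mem_filter.mp h2
            refine ⟨hG.symm K hK hT L hL2 p' h4, ?_, ω, h5, ?_⟩
            · show p'.2 ≤ p'.1
              omega
            · show (ω + H p'.2 + H p'.1) % 2 ^ G.lO K = x % 2 ^ G.lO K
              rw [← h6]
              congr 1
              ring)
        rw [Finset.card_image_of_injective _ Prod.swap_injective] at hB
        have hC := Finset.card_filter_add_card_filter_not (s := L.filter (fun p =>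
          ∃ ω ∈ G.Sd (G.lO K), (ω + H p.1 + H p.2) % 2 ^ G.lO K = x % 2 ^ G.lO K))
          (fun p => p.1 ≤ p.2)
        show (L.filter (fun p => ∃ ω ∈ G.Sd (G.lO K),
          (ω + H p.1 + H p.2) % 2 ^ G.lO K = x % 2 ^ G.lO K)).card < 3 * G.b K
        omega
  · refine ⟨fun _ => 0, fun S T => ⟨fun _ => by rw [Function.update_self],
      fun h => absurd h hT, fun _ _ h => absurd h hT, fun h => absurd h hT⟩⟩

end Pool.Agent.E3
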